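import Pool.Agent.X183.QP.Tor

/-!
# Maps of integrable type
-/

set_option autoImplicit false
set_option linter.unusedSectionVars false

open scoped Manifold ContDiff Topology
open Filter Set Metric

universe u

namespace Pool.Agent.X183.QP

open Pool.Agent.H718R2.G Pool.Agent.TH290.CL Pool.Agent.TH80.CLX Pool.Agent.TH80.OMS
open Pool.Agent.X183.PC
open Pool.Agent.Y504.CO (Rec IsHyperbolicPer)
open Pool.Agent.Y318.MN (CritInv IsCrit)

/-- `G` is of integrable type: `G` commutes with commuting smooth flows `ψ 0, …, ψ (k - 1)` of `N`,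
and for every recurrent point `x` of `G` the orbit of `x` under the flows is compact and contains an
iterate `G^j x`, `j ≥ 1`. -/
def IntegrableType (n : ℕ) (N : Type u) [TopologicalSpace N] [ChartedSpace (V n) N] (G : N → N) :
    Prop :=
  ∃ (k : ℕ) (ψ : ℕ → ℝ → N → N), (∀ i, IsFlow n N (ψ i)) ∧ Comm k ψ G univ ∧
    ∀ x ∈ Rec G, IsCompact (range fun w => mv ψ w k x) ∧
      ∃ j : ℕ, 1 ≤ j ∧ ∃ w, G^[j] x = mv ψ w k x

variable {n : ℕ} {N : Type u} [TopologicalSpace N] [T2Space N] [CompactSpace N]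
  [ChartedSpace (V n) N] [IsManifold (𝓡 n) ∞ N]

theorem orbit_case {k : ℕ} {ψ : ℕ → ℝ → N → N} (hψ : ∀ i, IsFlow n N (ψ i)) {G : N → N}
    (hc : Comm k ψ G univ) {x : N} (hcp : IsCompact (range fun w => mv ψ w k x))
    (hex : ∃ j : ℕ, 1 ≤ j ∧ ∃ w, G^[j] x = mv ψ w k x) :
    (∀ i < k, ∀ t, ψ i t x = x) ∨ x ∈ TorusPts n G := by
  classical
  have h0 : ∀ i y, ψ i 0 y = y := fun i => (hψ i).zero
  have hadd : ∀ i s t y, ψ i (s + t) y = ψ i s (ψ i t y) := fun i => (hψ i).add
  have hmu : ∀ y : N, y ∈ (univ : Set N) := fun y => mem_univ y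
  have hneg : ∀ w y, mv ψ (fun i => -w i) k (mv ψ w k y) = y := fun w y =>
    mv_neg hc h0 hadd w le_rfl (hmu y)
  have hsum : ∀ w w' y, mv ψ (fun i => w i + w' i) k y = mv ψ w k (mv ψ w' k y) := fun w w' y =>
    mv_add hc hadd w w' le_rfl (hmu y)
  have hit : ∀ (q : ℕ) w y, G^[q] (mv ψ w k y) = mv ψ w k (G^[q] y) := fun q w y =>
    mv_iter hc w le_rfl q (hmu y)
  have hone : ∀ i < k, ∀ t u, ψ i t (mv ψ u k x) =
      mv ψ (fun l => u l + (if l = i then t else 0)) k x := by
    intro i hi t u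
    rw [hsum]
    have e1 : ∀ j, j ≤ k → ∀ y, mv ψ (fun l => if l = i then t else 0) j y =
        if i < j then ψ i t y else y := by
      intro j
      induction j with
      | zero => intro _ y; rfl
      | succ j ih =>
        intro hj y
        show ψ j (if j = i then t else 0) (mv ψ (fun l => if l = i then t else 0) j y) = _
        rw [ih (by omega)]
        by_cases hji : j = i
        · subst hji
          rw [if_pos rfl, if_neg (lt_irrefl _), if_pos (Nat.lt_succ_self _)]
        · rw [if_neg hji, h0]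
          by_cases hij : i < j
          · rw [if_pos hij, if_pos (by omega)]
          · rw [if_neg hij, if_neg (by omega)]
    rw [e1 k le_rfl, if_pos hi, mv_flow hc u hi t le_rfl (hmu x)]
  by_cases hne : (range fun w => mv ψ w k x).Nontrivial
  · obtain ⟨hm, w₀, hw₀⟩ := Nat.find_spec hex
    have hmin : ∀ i, i < Nat.find hex → ¬ (1 ≤ i ∧ ∃ w, G^[i] x = mv ψ w k x) :=
      fun i hi => Nat.find_min hex hi
    refine Or.inr ⟨range fun w => mv ψ w k x, ⟨k, ψ, Nat.find hex, hψ, hcp, hne, ?_, hm, ?_,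
      ⟨?_, ?_, ?_, ?_⟩⟩, ⟨fun _ => 0, mv_zero h0 k x⟩⟩
    · rintro _ ⟨u, rfl⟩ _ ⟨v, rfl⟩
      refine ⟨fun i => v i + -u i, ?_⟩
      show mv ψ (fun i => v i + -u i) k (mv ψ u k x) = mv ψ v k x
      rw [hsum, hneg]
    · intro i h1 h2
      rw [Set.disjoint_left]
      rintro _ ⟨_, ⟨u, rfl⟩, rfl⟩ ⟨v, hv⟩
      apply hmin i h2
      refine ⟨h1, fun l => -u l + v l, ?_⟩
      have hv' : mv ψ v k x = G^[i] (mv ψ u k x) := hv
      rw [hsum, hv', hit, hneg]
    · rintro i hi t _ ⟨u, rfl⟩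
      exact ⟨fun l => u l + (if l = i then t else 0), (hone i hi t u).symm⟩
    · intro i hi j hj s t y _
      exact hc.comm i hi j hj s t y (hmu y)
    · rintro _ ⟨u, rfl⟩
      refine ⟨fun i => u i + w₀ i, ?_⟩
      show mv ψ (fun i => u i + w₀ i) k x = G^[Nat.find hex] (mv ψ u k x)
      rw [hsum, hit, hw₀]
    · intro i hi t y _
      have : ∀ l : ℕ, G^[l] (ψ i t y) = ψ i t (G^[l] y) := by
        intro l
        induction l with
        | zero => rfl
        | succ l ih =>
          rw [Function.iterate_succ_apply', ih, Function.iterate_succ_apply',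
            hc.mcomm i hi _ _ (hmu _)]
      exact this _
  · rw [Set.not_nontrivial_iff] at hne
    left
    intro i hi t
    have e1 := hone i hi t (fun _ => 0)
    rw [mv_zero h0] at e1
    rw [e1]
    exact hne ⟨_, rfl⟩ ⟨fun _ => 0, mv_zero h0 k x⟩

theorem rec_of_integrable {G : N → N} (h : IntegrableType n N G) :
    Rec G ⊆ Per G ∪ TorusPts n G := by
  obtain ⟨k, ψ, hψ, hc, hrec⟩ := h
  intro x hx
  obtain ⟨hcp, hex⟩ := hrec x hx
  rcases orbit_case hψ hc hcp hex with h1 | h1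
  · obtain ⟨j, hj, w, hw⟩ := hex
    exact Or.inl ⟨j, hj, by rw [hw, mv_fixed h1 w le_rfl]⟩
  · exact Or.inr h1

theorem torusRec_of_rec {r : ℕ∞} {G : DiffM n N r}
    (h : Rec G ⊆ Per G ∪ CurvePts n G ∪ TorusPts n G) : TorusRec n N r G := by
  refine ⟨fun _ => 0, contMDiff_const, fun _ => le_rfl, ?_⟩
  have : (CritInv n G (fun _ => 0) ∩ Rec G) \ (Per G ∪ CurvePts n G ∪ TorusPts n G) = ∅ := by
    rw [sdiff_eq_empty]
    exact fun x hx => h hx.2
  rw [this]
  exact countable_empty

theorem torusRec_of_integrable {r : ℕ∞} {G : DiffM n N r} (h : IntegrableType n N G) :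
    TorusRec n N r G := by
  refine torusRec_of_rec fun x hx => ?_
  rcases rec_of_integrable h hx with h1 | h1
  · exact Or.inl (Or.inl h1)
  · exact Or.inr h1

end Pool.Agent.X183.QP
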